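import Pool.Agent.Helper25.LS.Defs

/-! Hadamard's determinant inequality. -/

namespace Pool.Agent.Helper90.LS

open Pool.Agent.Helper25.LS Matrix
open scoped ComplexOrder

theorem det_le_one {m : ℕ} (N : Matrix (Fin m) (Fin m) ℂ)
    (h : ∀ l, ∑ k, ‖N k l‖ ^ 2 = 1) : ‖N.det‖ ≤ 1 := by
  have hps : (Nᴴ * N).PosSemidef := Matrix.posSemidef_conjTranspose_mul_self N
  have hH := hps.isHermitian
  have hdet := hH.det_eq_prod_eigenvalues
  have htr := hH.trace_eq_sum_eigenvalues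
  have h1 : (Nᴴ * N).det = ((‖N.det‖ ^ 2 : ℝ) : ℂ) := by
    rw [Matrix.det_mul, Matrix.det_conjTranspose]
    have := Complex.conj_mul' N.det
    simpa using this
  have h2 : (Nᴴ * N).trace = ((m : ℝ) : ℂ) := by
    rw [Matrix.trace]
    have : ∀ l, (Nᴴ * N).diag l = ((∑ k, ‖N k l‖ ^ 2 : ℝ) : ℂ) := by
      intro l
      rw [Matrix.diag_apply, Matrix.mul_apply]
      push_cast
      refine Finset.sum_congr rfl fun k _ => ?_
      rw [Matrix.conjTranspose_apply]
      have := Complex.conj_mul' (N k l)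
      simpa using this
    simp_rw [this, h]
    simp
  have h3 : ‖N.det‖ ^ 2 = ∏ i, hH.eigenvalues i := by
    rw [h1] at hdet
    have h4 : ((‖N.det‖ ^ 2 : ℝ) : ℂ) = ((∏ i, hH.eigenvalues i : ℝ) : ℂ) := by
      rw [hdet]; push_cast; rfl
    exact_mod_cast h4
  have h5 : ∑ i, hH.eigenvalues i = (m : ℝ) := by
    rw [h2] at htr
    have h4 : ((m : ℝ) : ℂ) = ((∑ i, hH.eigenvalues i : ℝ) : ℂ) := by
      rw [htr]; push_cast; rfl
    exact (by exact_mod_cast h4.symm : (∑ i, hH.eigenvalues i) = (m : ℝ))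
  have h6 : ∏ i, hH.eigenvalues i ≤ ∏ i, Real.exp (hH.eigenvalues i - 1) := by
    refine Finset.prod_le_prod (fun i _ => hps.eigenvalues_nonneg i) fun i _ => ?_
    have := Real.add_one_le_exp (hH.eigenvalues i - 1)
    linarith
  rw [← Real.exp_sum, Finset.sum_sub_distrib, h5] at h6
  simp at h6
  have h7 : ‖N.det‖ ^ 2 ≤ 1 := by rw [h3]; exact h6
  exact (sq_le_one_iff₀ (norm_nonneg _)).1 h7

theorem ha : S_HA := by
  intro m M
  by_cases h0 : ∃ l, ∑ k, ‖M k l‖ ^ 2 = 0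
  · obtain ⟨l, hl⟩ := h0
    have hcol : ∀ k, M k l = 0 := by
      intro k
      have := (Finset.sum_eq_zero_iff_of_nonneg (fun k _ => by positivity)).1 hl k
        (Finset.mem_univ k)
      simpa using this
    rw [Matrix.det_eq_zero_of_column_eq_zero l hcol, norm_zero]
    exact Finset.prod_nonneg fun l _ => Real.sqrt_nonneg _
  · push Not at h0
    set c : Fin m → ℝ := fun l => Real.sqrt (∑ k, ‖M k l‖ ^ 2) with hc
    have hpos : ∀ l, 0 < ∑ k, ‖M k l‖ ^ 2 := fun l =>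
      lt_of_le_of_ne (Finset.sum_nonneg fun k _ => by positivity) (Ne.symm (h0 l))
    have hcpos : ∀ l, 0 < c l := fun l => Real.sqrt_pos.2 (hpos l)
    have hcsq : ∀ l, c l ^ 2 = ∑ k, ‖M k l‖ ^ 2 := fun l => Real.sq_sqrt (hpos l).le
    set N : Matrix (Fin m) (Fin m) ℂ := M * Matrix.diagonal (fun l => ((c l)⁻¹ : ℂ)) with hN
    have hNe : ∀ k l, N k l = M k l * ((c l)⁻¹ : ℂ) := by
      intro k l
      rw [hN, Matrix.mul_diagonal]
    have h1 : ∀ l, ∑ k, ‖N k l‖ ^ 2 = 1 := by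
      intro l
      have : ∀ k, ‖N k l‖ ^ 2 = ‖M k l‖ ^ 2 * (c l ^ 2)⁻¹ := by
        intro k
        rw [hNe, norm_mul, norm_inv, Complex.norm_real, Real.norm_eq_abs, abs_of_pos (hcpos l),
          mul_pow, inv_pow]
      simp_rw [this]
      rw [← Finset.sum_mul, ← hcsq]
      exact mul_inv_cancel₀ (pow_pos (hcpos l) 2).ne'
    have h2 := det_le_one N h1
    have h3 : N.det = M.det * ∏ l, ((c l)⁻¹ : ℂ) := by
      rw [hN, Matrix.det_mul, Matrix.det_diagonal]
    have h4 : ‖N.det‖ = ‖M.det‖ * (∏ l, c l)⁻¹ := by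
      rw [h3, norm_mul, norm_prod]
      congr 1
      rw [← Finset.prod_inv_distrib]
      refine Finset.prod_congr rfl fun l _ => ?_
      rw [norm_inv, Complex.norm_real, Real.norm_eq_abs, abs_of_pos (hcpos l)]
    have h5 : 0 < ∏ l, c l := Finset.prod_pos fun l _ => hcpos l
    rw [h4, ← div_eq_mul_inv, div_le_one h5] at h2
    exact h2

end Pool.Agent.Helper90.LS
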